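import Pool.Agent.Helper29.CT.ParityAux
import Pool.Agent.Helper32.CT.Spec
import Pool.Agent.Helper75.CT.Tlemma

set_option autoImplicit false

/-!
# CT-5: the parity law
-/

namespace Pool.Agent.Helper17.CT

variable {H : Type} {k : ℕ} (N : Pole H k)

/-- CT-5 -/
theorem parity_law [Finite H] (b : (H → Bool) → Fin k → Fin k) (ε : (H → Bool) → Fin k → Bool)
    (hs : ∀ O, N.Sys O → N.Spec O (b O) (ε O)) (κ : Fin k → Fin 3) (c c' : Fin 3) :
    Nat.card {O : H → Bool // N.Sys O ∧ Compat (b O) (ε O) κ c} ≡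
      Nat.card {O : H → Bool // N.Sys O ∧ Compat (b O) (ε O) κ c'} [MOD 2] :=
  ct5_parity_law N (fun κ c => tlemma N κ c)
    (fun O hO c γ γ' h h' hc hc' hp => col_unique N O hO c γ γ' h h' hc hc' hp) b ε hs κ c c'

end Pool.Agent.Helper17.CT
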