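import Pool.Agent.Helper17.CT.Defs

set_option autoImplicit false

/-!
# CT-5: the parity law (relative to CT-1 and CT-4a)
-/

namespace Pool.Agent.Helper17.CT

section poles
variable {H : Type} {k : ℕ} (N : Pole H k)

/-- the set of darts whose colour is not `c` is a system if it has no loops -/
theorem ct5_sys (c : Fin 3) (γ : H → Fin 3) (h : N.Col γ)
    (hl : N.Loopless (fun d => decide (γ d ≠ c))) : N.Sys (fun d => decide (γ d ≠ c)) where
  acl := by
    intro d
    show decide (γ (N.a d) ≠ c) = decide (γ d ≠ c)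
    rw [h.acl]
  one := by
    intro d hd
    have h1 : γ (N.s d) ≠ γ d := h.prop d hd
    have h2 : N.s (N.s d) ≠ N.s d := by
      intro h2
      have h3 := N.s3 d
      rw [h2, h2] at h3
      exact hd h3
    have h3 : γ (N.s (N.s d)) ≠ γ (N.s d) := h.prop _ h2
    have h4 : N.s (N.s (N.s d)) ≠ N.s (N.s d) := by
      rw [N.s3]
      intro h4
      apply hd
      rw [h4, N.s3]
      exact h4
    have h5 : γ (N.s (N.s (N.s d))) ≠ γ (N.s (N.s d)) := h.prop _ h4
    rw [N.s3] at h5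
    have key : ∀ x y z c : Fin 3, y ≠ x → z ≠ y → x ≠ z →
        ((decide (x ≠ c) = false ∧ decide (y ≠ c) = true ∧ decide (z ≠ c) = true) ∨
          (decide (x ≠ c) = true ∧ decide (y ≠ c) = false ∧ decide (z ≠ c) = true) ∨
          (decide (x ≠ c) = true ∧ decide (y ≠ c) = true ∧ decide (z ≠ c) = false)) := by
      decide
    exact key _ _ _ c h1 h3 h5
  loopless := hl

/-- the colourings without loops correspond to the compatible systems -/
theorem ct5_card (hcu : ∀ (O : H → Bool) (_ : N.Sys O) (c : Fin 3) (γ γ' : H → Fin 3)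
    (_ : N.Col γ) (_ : N.Col γ') (_ : ∀ d, γ d ≠ c ↔ O d = true)
    (_ : ∀ d, γ' d ≠ c ↔ O d = true) (_ : ∀ j, γ (N.port j) = γ' (N.port j)), γ = γ')
    (b : (H → Bool) → Fin k → Fin k) (ε : (H → Bool) → Fin k → Bool)
    (hs : ∀ O, N.Sys O → N.Spec O (b O) (ε O)) (κ : Fin k → Fin 3) (c : Fin 3) :
    Nat.card {γ : H → Fin 3 // N.Col γ ∧ (∀ j, γ (N.port j) = κ j) ∧
        N.Loopless (fun d => decide (γ d ≠ c))} =
      Nat.card {O : H → Bool // N.Sys O ∧ Compat (b O) (ε O) κ c} := by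
  have hmap : ∀ γ : {γ : H → Fin 3 // N.Col γ ∧ (∀ j, γ (N.port j) = κ j) ∧
      N.Loopless (fun d => decide (γ d ≠ c))},
      N.Sys (fun d => decide (γ.1 d ≠ c)) ∧
        Compat (b (fun d => decide (γ.1 d ≠ c))) (ε (fun d => decide (γ.1 d ≠ c))) κ c := by
    rintro ⟨γ, hγ, hκ, hl⟩
    have hsys := ct5_sys N c γ hγ hl
    have hsp := hs _ hsys
    have hport : ∀ j, κ j ≠ c ↔ (fun d => decide (γ d ≠ c)) (N.port j) = true := by
      intro j
      simp only [decide_eq_true_eq, hκ]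
    refine ⟨hsys, ?_⟩
    intro j
    have h1 := (hsp.alt κ c hport).mp ⟨γ, hγ, hκ, fun d => by simp only [decide_eq_true_eq]⟩
    refine ⟨(hport j).trans (hsp.use j), fun hb => h1 j ((hsp.use j).mpr hb)⟩
  refine Nat.card_eq_of_bijective
    (fun γ => (⟨fun d => decide (γ.1 d ≠ c), hmap γ⟩ :
      {O : H → Bool // N.Sys O ∧ Compat (b O) (ε O) κ c})) ⟨?_, ?_⟩
  · rintro ⟨γ, hγ, hκ, hl⟩ ⟨γ', hγ', hκ', hl'⟩ heq
    apply Subtype.ext
    have h1 : (fun d => decide (γ d ≠ c)) = (fun d => decide (γ' d ≠ c)) :=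
      congrArg Subtype.val heq
    apply hcu (fun d => decide (γ d ≠ c)) (ct5_sys N c γ hγ hl) c γ γ' hγ hγ'
    · intro d
      simp only [decide_eq_true_eq]
    · intro d
      have h2 := congrFun h1 d
      show γ' d ≠ c ↔ decide (γ d ≠ c) = true
      rw [h2, decide_eq_true_eq]
    · intro j
      rw [hκ, hκ']
  · rintro ⟨O, hO, hC⟩
    have hsp := hs O hO
    have hport : ∀ j, κ j ≠ c ↔ O (N.port j) = true := fun j =>
      (hC j).1.trans (hsp.use j).symm
    obtain ⟨γ, hγ, hκ, hγO⟩ := (hsp.alt κ c hport).mpr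
      (fun j hj => (hC j).2 ((hsp.use j).mp hj))
    have hOeq : (fun d => decide (γ d ≠ c)) = O := by
      funext d
      by_cases h : O d = true
      · rw [h]
        exact decide_eq_true ((hγO d).mpr h)
      · have h2 : ¬ (γ d ≠ c) := fun h3 => h ((hγO d).mp h3)
        rw [Bool.not_eq_true] at h
        rw [h]
        exact decide_eq_false h2
    refine ⟨⟨γ, hγ, hκ, ?_⟩, ?_⟩
    · rw [hOeq]
      exact hO.loopless
    · apply Subtype.ext
      exact hOeq

/-- the parity law, from `tlemma` and `col_unique` -/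
theorem ct5_parity_law
    (htl : ∀ (κ : Fin k → Fin 3) (c : Fin 3),
      Nat.card {γ : H → Fin 3 // N.Col γ ∧ (∀ j, γ (N.port j) = κ j) ∧
          N.Loopless (fun d => decide (γ d ≠ c))} ≡
        Nat.card {γ : H → Fin 3 // N.Col γ ∧ ∀ j, γ (N.port j) = κ j} [MOD 2])
    (hcu : ∀ (O : H → Bool) (_ : N.Sys O) (c : Fin 3) (γ γ' : H → Fin 3)
    (_ : N.Col γ) (_ : N.Col γ') (_ : ∀ d, γ d ≠ c ↔ O d = true)
    (_ : ∀ d, γ' d ≠ c ↔ O d = true) (_ : ∀ j, γ (N.port j) = γ' (N.port j)), γ = γ')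
    (b : (H → Bool) → Fin k → Fin k) (ε : (H → Bool) → Fin k → Bool)
    (hs : ∀ O, N.Sys O → N.Spec O (b O) (ε O)) (κ : Fin k → Fin 3) (c c' : Fin 3) :
    Nat.card {O : H → Bool // N.Sys O ∧ Compat (b O) (ε O) κ c} ≡
      Nat.card {O : H → Bool // N.Sys O ∧ Compat (b O) (ε O) κ c'} [MOD 2] := by
  rw [← ct5_card N hcu b ε hs κ c, ← ct5_card N hcu b ε hs κ c']
  exact (htl κ c).trans (htl κ c').symm

end poles

end Pool.Agent.Helper17.CT
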